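import Mathlib

/-! # MP_7d76f2_co, Q1 (negated form): a graph on 11 vertices with `Z* = Z = 2` and fort number 1. -/

namespace Pool.Agent.Results.MP_7d76f2_co.FractionalGap

open Finset

variable {V : Type} [Fintype V] [DecidableEq V]

/-- The vertices that get filled when the colour change rule is applied repeatedly, starting with
exactly the vertices of `S` filled. -/
inductive Filled (G : SimpleGraph V) (S : Finset V) : V → Prop
  | base (v : V) (hv : v ∈ S) : Filled G S v
  | force (u w : V) (hu : Filled G S u) (huw : G.Adj u w)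
      (hall : ∀ x, G.Adj u x → x ≠ w → Filled G S x) : Filled G S w

/-- zero forcing sets -/
def IsZeroForcing (G : SimpleGraph V) (S : Finset V) : Prop := ∀ v, Filled G S v

/-- the zero forcing number -/
noncomputable def zeroForcing (G : SimpleGraph V) : ℕ :=
  sInf {k | ∃ S : Finset V, IsZeroForcing G S ∧ S.card = k}

/-- forts -/
def IsFort (G : SimpleGraph V) [DecidableRel G.Adj] (F : Finset V) : Prop :=
  F.Nonempty ∧ ∀ v, v ∉ F → (F.filter (fun w => G.Adj v w)).card ≠ 1

instance (G : SimpleGraph V) [DecidableRel G.Adj] (F : Finset V) : Decidable (IsFort G F) := by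
  unfold IsFort; infer_instance

/-- minimal forts -/
def IsMinimalFort (G : SimpleGraph V) [DecidableRel G.Adj] (F : Finset V) : Prop :=
  IsFort G F ∧ ∀ F' ⊂ F, ¬ IsFort G F'

/-- the fort number: the maximum number of pairwise disjoint forts -/
noncomputable def fortNumber (G : SimpleGraph V) [DecidableRel G.Adj] : ℕ :=
  sSup {k | ∃ 𝓕 : Finset (Finset V), 𝓕.card = k ∧ (∀ F ∈ 𝓕, IsFort G F) ∧
    ∀ F ∈ 𝓕, ∀ F' ∈ 𝓕, F ≠ F' → Disjoint F F'}

/-- the fractional zero forcing number -/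
noncomputable def fractionalZF (G : SimpleGraph V) [DecidableRel G.Adj] : ℝ :=
  sInf {t : ℝ | ∃ x : V → ℝ, (∀ v, 0 ≤ x v) ∧ (∀ F, IsMinimalFort G F → 1 ≤ ∑ v ∈ F, x v) ∧
    t = ∑ v, x v}

/-- The graph: a triangle `3,4,5`, two 5-cycles `3,2,1,0,4` and `3,9,8,7,5` on two of its sides,
and pendant vertices `10` at `4` and `6` at `5`. -/
def edges : List (Fin 11 × Fin 11) :=
  [(0, 1), (0, 4), (1, 2), (2, 3), (3, 4), (3, 5), (3, 9), (4, 5), (4, 10), (5, 6), (5, 7),
    (7, 8), (8, 9)]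

def Gr : SimpleGraph (Fin 11) where
  Adj a b := (a, b) ∈ edges ∨ (b, a) ∈ edges
  symm := ⟨fun _ _ h => h.symm⟩
  loopless := ⟨by decide⟩

instance : DecidableRel Gr.Adj := fun a b => by
  change Decidable ((a, b) ∈ edges ∨ (b, a) ∈ edges)
  infer_instance

/-- the 18 minimal forts, as bit masks -/
def masks : List ℕ :=
  [395, 397, 651, 653, 1109, 1110, 1760, 1888, 363, 365, 741, 869, 1434, 1685, 1686, 1690, 1733, 1402]

theorem fort_contains : ∀ F : Finset (Fin 11), IsFort Gr F →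
    ∃ m ∈ masks, ∀ i : Fin 11, m.testBit i = true → i ∈ F := by
  decide +kernel

theorem masks_meet : ∀ m ∈ masks, ∀ m' ∈ masks, ∃ i : Fin 11,
    m.testBit i = true ∧ m'.testBit i = true := by
  decide +kernel

theorem no_disjoint {F F' : Finset (Fin 11)} (hF : IsFort Gr F) (hF' : IsFort Gr F') :
    ¬ Disjoint F F' := by
  intro hd
  obtain ⟨L, hL, hLF⟩ := fort_contains F hF
  obtain ⟨L', hL', hLF'⟩ := fort_contains F' hF'
  obtain ⟨x, hx, hx'⟩ := masks_meet L hL L' hL'
  exact Finset.disjoint_left.1 hd (hLF x hx) (hLF' x hx')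

theorem fortNumber_eq : fortNumber Gr = 1 := by
  have hbd : ∀ k ∈ {k | ∃ 𝓕 : Finset (Finset (Fin 11)), 𝓕.card = k ∧ (∀ F ∈ 𝓕, IsFort Gr F) ∧
      ∀ F ∈ 𝓕, ∀ F' ∈ 𝓕, F ≠ F' → Disjoint F F'}, k ≤ 1 := by
    rintro k ⟨𝓕, rfl, hf, hd⟩
    rw [Finset.card_le_one]
    intro F hF F' hF'
    by_contra hne
    exact no_disjoint (hf F hF) (hf F' hF') (hd F hF F' hF' hne)
  have h1 : 1 ∈ {k | ∃ 𝓕 : Finset (Finset (Fin 11)), 𝓕.card = k ∧ (∀ F ∈ 𝓕, IsFort Gr F) ∧
      ∀ F ∈ 𝓕, ∀ F' ∈ 𝓕, F ≠ F' → Disjoint F F'} := by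
    refine ⟨{{0, 2, 3, 7, 8}}, by simp, ?_, ?_⟩
    · intro F hF
      rw [Finset.mem_singleton] at hF
      subst hF
      decide
    · intro F hF F' hF' hne
      rw [Finset.mem_singleton] at hF hF'
      exact absurd (hF.trans hF'.symm) hne
  exact le_antisymm (csSup_le ⟨1, h1⟩ hbd) (le_csSup ⟨1, hbd⟩ h1)

omit [Fintype V] in
/-- a zero forcing set meets every fort -/
theorem forcing_meets_fort {G : SimpleGraph V} [DecidableRel G.Adj] {S F : Finset V}
    (hS : IsZeroForcing G S) (hF : IsFort G F) : ∃ v ∈ F, v ∈ S := by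
  by_contra hcon
  push Not at hcon
  have key : ∀ v, Filled G S v → v ∉ F := by
    intro v hv
    induction hv with
    | base v hv => exact fun h => hcon v h hv
    | force u w hu huw hall ihu ihall =>
      intro hw
      apply hF.2 u ihu
      rw [Finset.card_eq_one]
      refine ⟨w, ?_⟩
      ext x
      rw [Finset.mem_filter, Finset.mem_singleton]
      constructor
      · rintro ⟨hxF, hux⟩
        by_contra hne
        exact ihall x hux hne hxF
      · rintro rfl
        exact ⟨hw, huw⟩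
  obtain ⟨v, hv⟩ := hF.1
  exact key v (hS v) hv

theorem fractional_le {G : SimpleGraph V} [DecidableRel G.Adj] {S : Finset V}
    (hS : IsZeroForcing G S) : fractionalZF G ≤ S.card := by
  apply csInf_le
  · refine ⟨0, ?_⟩
    rintro t ⟨x, hx, _, rfl⟩
    exact Finset.sum_nonneg (fun v _ => hx v)
  · refine ⟨fun v => if v ∈ S then 1 else 0, fun v => by dsimp only; split_ifs <;> norm_num, ?_, ?_⟩
    · intro F hF
      obtain ⟨v, hvF, hvS⟩ := forcing_meets_fort hS hF.1
      calc (1 : ℝ) = if v ∈ S then 1 else 0 := by rw [if_pos hvS]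
        _ ≤ ∑ v ∈ F, if v ∈ S then (1 : ℝ) else 0 :=
          Finset.single_le_sum (f := fun v => if v ∈ S then (1 : ℝ) else 0)
            (fun w _ => by split_ifs <;> norm_num) hvF
    · rw [Finset.sum_ite_mem, Finset.univ_inter]
      simp

theorem minimal_of {L : Finset (Fin 11)}
    (hL : ∀ m ∈ masks, (∀ i : Fin 11, m.testBit i = true → i ∈ L) →
      ∀ i ∈ L, m.testBit i = true)
    (hf : IsFort Gr L) : IsMinimalFort Gr L := by
  refine ⟨hf, fun F' h hF' => ?_⟩
  obtain ⟨m, hm, hsub⟩ := fort_contains F' hF'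
  have h1 := hL m hm (fun i hi => h.1 (hsub i hi))
  exact h.2 (fun i hi => hsub i (h1 i hi))

theorem min1 : IsMinimalFort Gr {0, 2, 3, 7, 8} :=
  minimal_of (by decide +kernel) (by decide +kernel)

theorem min2 : IsMinimalFort Gr {0, 1, 3, 7, 9} :=
  minimal_of (by decide +kernel) (by decide +kernel)

theorem min3 : IsMinimalFort Gr {1, 2, 4, 6, 10} :=
  minimal_of (by decide +kernel) (by decide +kernel)

theorem min4 : IsMinimalFort Gr {5, 6, 8, 9, 10} :=
  minimal_of (by decide +kernel) (by decide +kernel)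

theorem two_le_sum {x : Fin 11 → ℝ} (h0 : ∀ v, 0 ≤ x v)
    (h : ∀ F, IsMinimalFort Gr F → 1 ≤ ∑ v ∈ F, x v) : 2 ≤ ∑ v, x v := by
  have h1 := h _ min1
  have h2 := h _ min2
  have h3 := h _ min3
  have h4 := h _ min4
  have e1 : ∑ v ∈ ({0, 2, 3, 7, 8} : Finset (Fin 11)), x v = x 0 + (x 2 + (x 3 + (x 7 + x 8))) := by
    simp
  have e2 : ∑ v ∈ ({0, 1, 3, 7, 9} : Finset (Fin 11)), x v = x 0 + (x 1 + (x 3 + (x 7 + x 9))) := by
    simp
  have e3 : ∑ v ∈ ({1, 2, 4, 6, 10} : Finset (Fin 11)), x v = x 1 + (x 2 + (x 4 + (x 6 + x 10))) := by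
    simp
  have e4 : ∑ v ∈ ({5, 6, 8, 9, 10} : Finset (Fin 11)), x v = x 5 + (x 6 + (x 8 + (x 9 + x 10))) := by
    simp
  rw [e1] at h1
  rw [e2] at h2
  rw [e3] at h3
  rw [e4] at h4
  have e : ∑ v, x v = x 0 + x 1 + x 2 + x 3 + x 4 + x 5 + x 6 + x 7 + x 8 + x 9 + x 10 := by
    simp only [Fin.sum_univ_succ, Fin.sum_univ_zero]
    have a3 : (Fin.succ (Fin.succ 1) : Fin 11) = 3 := rfl
    simp only [Fin.succ_zero_eq_one, Fin.succ_one_eq_two]
    have : (∑ v : Fin 11, x v) = ∑ v : Fin 11, x v := rfl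
    ring_nf
    rfl
  rw [e]
  linarith [h0 0, h0 1, h0 2, h0 3, h0 4, h0 5, h0 6, h0 7, h0 8, h0 9, h0 10]

theorem fractional_ge : 2 ≤ fractionalZF Gr := by
  apply le_csInf
  · exact ⟨_, fun _ => 1, fun _ => zero_le_one, fun F hF => by
      have h1 : 1 ≤ F.card := hF.1.1.card_pos
      simpa using h1, rfl⟩
  · rintro t ⟨x, h0, h, rfl⟩
    exact two_le_sum h0 h

theorem forcing_set : IsZeroForcing Gr {0, 10} := by
  have f0 : Filled Gr {0, 10} 0 := Filled.base 0 (by decide)
  have f10 : Filled Gr {0, 10} 10 := Filled.base 10 (by decide)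
  have step : ∀ (u w : Fin 11) (l : List (Fin 11)), Filled Gr {0, 10} u → Gr.Adj u w →
      (∀ x, Gr.Adj u x → x ≠ w → x ∈ l) → (∀ x ∈ l, Filled Gr {0, 10} x) →
      Filled Gr {0, 10} w :=
    fun u w l hu huw h1 h2 => Filled.force u w hu huw (fun x hx hne => h2 x (h1 x hx hne))
  have f4 := step 10 4 [] f10 (by decide) (by decide) (by simp)
  have f1 := step 0 1 [4] f0 (by decide) (by decide) (by simpa using f4)
  have f2 := step 1 2 [0] f1 (by decide) (by decide) (by simpa using f0)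
  have f3 := step 2 3 [1] f2 (by decide) (by decide) (by simpa using f1)
  have f5 := step 4 5 [0, 3, 10] f4 (by decide) (by decide) (by simpa using ⟨f0, f3, f10⟩)
  have f9 := step 3 9 [2, 4, 5] f3 (by decide) (by decide) (by simpa using ⟨f2, f4, f5⟩)
  have f8 := step 9 8 [3] f9 (by decide) (by decide) (by simpa using f3)
  have f7 := step 8 7 [9] f8 (by decide) (by decide) (by simpa using f9)
  have f6 := step 5 6 [3, 4, 7] f5 (by decide) (by decide) (by simpa using ⟨f3, f4, f7⟩)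
  intro v
  fin_cases v
  · exact f0
  · exact f1
  · exact f2
  · exact f3
  · exact f4
  · exact f5
  · exact f6
  · exact f7
  · exact f8
  · exact f9
  · exact f10

theorem zeroForcing_eq : zeroForcing Gr = 2 := by
  have hmem : 2 ∈ {k | ∃ S : Finset (Fin 11), IsZeroForcing Gr S ∧ S.card = k} :=
    ⟨{0, 10}, forcing_set, by decide⟩
  apply le_antisymm
  · exact Nat.sInf_le hmem
  · apply le_csInf ⟨2, hmem⟩
    rintro k ⟨S, hS, rfl⟩
    have h := fractional_ge.trans (fractional_le hS)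
    exact_mod_cast h

theorem fractional_eq : fractionalZF Gr = 2 := by
  apply le_antisymm
  · have h := fractional_le forcing_set
    have e : (({0, 10} : Finset (Fin 11)).card : ℝ) = 2 := by
      rw [show ({0, 10} : Finset (Fin 11)).card = 2 by decide]
      norm_num
    rwa [e] at h
  · exact fractional_ge

/-- **Counterexample to Q1.** There is a graph `G` with `Z*(G) = Z(G)` and
`ft(G) < Z(G)`. -/
theorem result : ∃ (G : SimpleGraph (Fin 11)) (_ : DecidableRel G.Adj),
    fractionalZF G = (zeroForcing G : ℝ) ∧ fortNumber G < zeroForcing G := by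
  refine ⟨Gr, inferInstance, ?_, ?_⟩
  · rw [fractional_eq, zeroForcing_eq]
    norm_num
  · rw [fortNumber_eq, zeroForcing_eq]
    norm_num

end Pool.Agent.Results.MP_7d76f2_co.FractionalGap
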